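import Mathlib
import Pool.Agent.Q215.CantorIndep

/-!
In ZFC there is a Borel subset of the Cantor group with an uncountable, but no perfect, family
of translates with pairwise uncountable intersections.
-/

open Set

namespace Pool.Agent.Results.MP_11d5c7_lc.OverlapTranslates

/-- Borel subsets of a topological space. -/
def IsBorel {X : Type} [TopologicalSpace X] (A : Set X) : Prop := @MeasurableSet X (borel X) A

/-- The translate `B + x`. -/
def translate (B : Set (ℕ → ZMod 2)) (x : ℕ → ZMod 2) : Set (ℕ → ZMod 2) :=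
  (fun b => b + x) '' B

open Q215.CI

/-! ### Indices -/

/-- index of the first kind. -/
def al (x : C) : C := fun n => Nat.casesOn n 0 x

/-- index of the second kind. -/
def ga (x y v : C) : C := fun n => Nat.casesOn n 1 fun m =>
  if m % 3 = 0 then x (m / 3) else if m % 3 = 1 then y (m / 3) else v (m / 3)

lemma al_injective : Function.Injective al := by
  intro x y h
  funext i
  exact congrFun h (i + 1)

lemma al_ne_ga (x a b c : C) : al x ≠ ga a b c := by
  intro h
  have h1 := congrFun h 0
  simp [al, ga] at h1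

lemma ga_inj {x y v x' y' v' : C} (h : ga x y v = ga x' y' v') : x = x' ∧ y = y' ∧ v = v' := by
  refine ⟨?_, ?_, ?_⟩
  · funext i
    have h1 := congrFun h (3 * i + 1)
    have a : (3 * i) % 3 = 0 := by omega
    have b : (3 * i) / 3 = i := by omega
    simpa [ga, a, b] using h1
  · funext i
    have h1 := congrFun h (3 * i + 1 + 1)
    have a : (3 * i + 1) % 3 = 1 := by omega
    have b : (3 * i + 1) / 3 = i := by omega
    simpa [ga, a, b] using h1
  · funext i
    have h1 := congrFun h (3 * i + 2 + 1)
    have a : (3 * i + 2) % 3 = 2 := by omega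
    have b : (3 * i + 2) / 3 = i := by omega
    simpa [ga, a, b] using h1

lemma al_continuous : Continuous al := by
  rw [continuous_pi_iff]
  intro n
  cases n with
  | zero => exact continuous_const
  | succ n => exact continuous_apply n

lemma ga_continuous : Continuous (fun w : C × C × C => ga w.1 w.2.1 w.2.2) := by
  rw [continuous_pi_iff]
  intro n
  cases n with
  | zero => exact continuous_const
  | succ m =>
    show Continuous fun w : C × C × C =>
      if m % 3 = 0 then w.1 (m / 3) else if m % 3 = 1 then w.2.1 (m / 3) else w.2.2 (m / 3)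
    split_ifs
    · exact (continuous_apply _).comp continuous_fst
    · exact (continuous_apply _).comp (continuous_fst.comp continuous_snd)
    · exact (continuous_apply _).comp (continuous_snd.comp continuous_snd)

/-! ### The relation -/

/-- the columns of `y`. -/
def col (y : C) (n : ℕ) : C := fun i => y (Nat.pair n i)

/-- the relation coded by the set. -/
def R (x y : C) : Prop := x ≠ y ∧ ∃ n, x = col y n

lemma col_continuous (n : ℕ) : Continuous (fun y : C => col y n) := by
  rw [continuous_pi_iff]
  intro i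
  exact continuous_apply _

/-- the Borel set. -/
def B : Set C := {z | ∃ x y v, R x y ∧ (z = e (ga x y v) ∨ z = e (al x) + e (al y) + e (ga x y v))}

lemma borel_B : IsBorel B := by
  have hC := polishC
  let _ : MeasurableSpace C := borel C
  have _ : BorelSpace C := ⟨rfl⟩
  have hR : MeasurableSet {w : C × C × C | R w.1 w.2.1} := by
    have : {w : C × C × C | R w.1 w.2.1} =
        {w : C × C × C | w.1 = w.2.1}ᶜ ∩ ⋃ n, {w : C × C × C | w.1 = col w.2.1 n} := by
      ext w
      simp only [R, mem_inter_iff, mem_compl_iff, mem_iUnion]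
      rfl
    rw [this]
    refine MeasurableSet.inter (MeasurableSet.compl ?_) (MeasurableSet.iUnion fun n => ?_)
    · exact (isClosed_eq continuous_fst (continuous_fst.comp continuous_snd)).measurableSet
    · exact (isClosed_eq continuous_fst ((col_continuous n).comp
        (continuous_fst.comp continuous_snd))).measurableSet
  have c1 : Continuous (fun w : C × C × C => e (ga w.1 w.2.1 w.2.2)) :=
    e_continuous.comp ga_continuous
  have c2 : Continuous (fun w : C × C × C =>
      e (al w.1) + e (al w.2.1) + e (ga w.1 w.2.1 w.2.2)) :=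
    ((e_continuous.comp (al_continuous.comp continuous_fst)).add
      (e_continuous.comp (al_continuous.comp (continuous_fst.comp continuous_snd)))).add c1
  have hB : B = (fun w : C × C × C => e (ga w.1 w.2.1 w.2.2)) '' {w | R w.1 w.2.1} ∪
      (fun w : C × C × C => e (al w.1) + e (al w.2.1) + e (ga w.1 w.2.1 w.2.2)) ''
        {w | R w.1 w.2.1} := by
    ext z
    constructor
    · rintro ⟨x, y, v, hR, h | h⟩
      · exact Or.inl ⟨(x, y, v), hR, h.symm⟩
      · exact Or.inr ⟨(x, y, v), hR, h.symm⟩
    · rintro (⟨⟨x, y, v⟩, hR, h⟩ | ⟨⟨x, y, v⟩, hR, h⟩)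
      · exact ⟨x, y, v, hR, Or.inl h.symm⟩
      · exact ⟨x, y, v, hR, Or.inr h.symm⟩
  show MeasurableSet B
  rw [hB]
  refine MeasurableSet.union ?_ ?_
  · refine hR.image_of_continuousOn_injOn c1.continuousOn ?_
    rintro ⟨x, y, v⟩ - ⟨x', y', v'⟩ - h
    obtain ⟨rfl, rfl, rfl⟩ := ga_inj (e_injective h)
    rfl
  · refine hR.image_of_continuousOn_injOn c2.continuousOn ?_
    rintro ⟨x, y, v⟩ - ⟨x', y', v'⟩ - h
    classical
    have hs : (([al x, al y, ga x y v, al x', al y', ga x' y' v'] : List C).map e).sum = 0 := by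
      simp only [List.map_cons, List.map_nil, List.sum_cons, List.sum_nil, add_zero]
      have h' : e (al x) + e (al y) + e (ga x y v) =
        e (al x') + e (al y') + e (ga x' y' v') := h
      have : e (al x) + (e (al y) + (e (ga x y v) + (e (al x') + (e (al y') +
          e (ga x' y' v'))))) = (e (al x) + e (al y) + e (ga x y v)) +
          (e (al x') + e (al y') + e (ga x' y' v')) := by ring
      rw [this, h', add_self]
    have c := even_count _ hs (ga x y v)
    by_cases hg : ga x' y' v' = ga x y v
    · obtain ⟨rfl, rfl, rfl⟩ := ga_inj hg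
      rfl
    · simp [al_ne_ga, hg] at c

lemma uncountable_C : ¬ (Set.univ : Set C).Countable := by
  intro h
  rw [Set.countable_univ_iff] at h
  obtain ⟨f, hf⟩ := exists_surjective_nat C
  obtain ⟨n, hn⟩ := hf (fun i => f i i + 1)
  have := congrFun hn n
  simp at this

/-- elements of the difference set of the required form. -/
def S (x y : C) : Prop := R x y ∨ R y x

lemma mem_translate {A : Set C} {x z : C} : z ∈ translate A x ↔ z + x ∈ A := by
  constructor
  · rintro ⟨b, hb, rfl⟩
    show b + x + x ∈ A
    rw [add_assoc, add_self, add_zero]; exact hb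
  · intro h
    exact ⟨z + x, h, by show z + x + x = z; rw [add_assoc, add_self, add_zero]⟩

/-- the uncountable intersections. -/
lemma uncountable_inter {x y u w : C} (hR : R u w) (h : x + y = e (al u) + e (al w)) :
    ¬ (translate B x ∩ translate B y).Countable := by
  intro hc
  -- an injection of C into the intersection
  apply uncountable_C
  have hsub : Set.univ ⊆ (fun v : C => e (ga u w v) + x) ⁻¹'
      (translate B x ∩ translate B y) := by
    intro v _
    refine ⟨?_, ?_⟩
    · rw [mem_translate]
      have : e (ga u w v) + x + x = e (ga u w v) := by rw [add_assoc, add_self, add_zero]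
      rw [this]
      exact ⟨u, w, v, hR, Or.inl rfl⟩
    · rw [mem_translate]
      have : e (ga u w v) + x + y = e (al u) + e (al w) + e (ga u w v) := by
        rw [add_assoc, h, add_comm]
      rw [this]
      exact ⟨u, w, v, hR, Or.inr rfl⟩
  refine (hc.preimage_of_injOn ?_).mono hsub
  intro v _ v' _ hv
  exact (ga_inj (e_injective (add_right_cancel hv))).2.2

lemma countable_inter {x y : C} (hxy : x ≠ y)
    (h : ∀ u w, R u w → x + y ≠ e (al u) + e (al w)) :
    (translate B x ∩ translate B y).Countable := by
  classical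
  -- elements of the intersection
  rcases (translate B x ∩ translate B y).eq_empty_or_nonempty with hem | ⟨z0, hz0⟩
  · rw [hem]; exact countable_empty
  -- lists of indices
  have rep : ∀ b ∈ B, ∃ u w v, ∃ l : List C, R u w ∧ (l = [] ∨ l = [al u, al w]) ∧
      b = ((l ++ [ga u w v]).map e).sum := by
    rintro b ⟨u, w, v, hR, hb | hb⟩
    · exact ⟨u, w, v, [], hR, Or.inl rfl, by simpa using hb⟩
    · exact ⟨u, w, v, [al u, al w], hR, Or.inr rfl, by simpa [add_assoc] using hb⟩
  have hcount : ∀ (l : List C) (u w a b c : C), (l = [] ∨ l = [al u, al w]) →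
      l.count (ga a b c) = 0 := by
    rintro l u w a b c (rfl | rfl)
    · simp
    · simp [al_ne_ga]
  -- two elements of B with sum x + y have different indices
  have hdiff : ∀ (l l' : List C) (u w v u' w' v' : C), R u w → (l = [] ∨ l = [al u, al w]) →
      (l' = [] ∨ l' = [al u', al w']) →
      ((l ++ [ga u w v]).map e).sum + ((l' ++ [ga u' w' v']).map e).sum = x + y →
      ga u w v ≠ ga u' w' v' := by
    intro l l' u w v u' w' v' hR hl hl' hsum hg
    obtain ⟨rfl, rfl, rfl⟩ := ga_inj hg
    simp only [List.map_append, List.sum_append, List.map_cons, List.map_nil, List.sum_cons,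
      List.sum_nil, add_zero] at hsum
    have h1 : (l.map e).sum + (l'.map e).sum = x + y := by
      rw [← hsum]
      have : (l.map e).sum + e (ga u w v) + ((l'.map e).sum + e (ga u w v)) =
          (l.map e).sum + (l'.map e).sum + (e (ga u w v) + e (ga u w v)) := by ring
      rw [this, add_self, add_zero]
    have hne : x + y ≠ 0 := fun h0 => hxy (eq_of_add_eq_zero h0)
    rcases hl with rfl | rfl <;> rcases hl' with rfl | rfl
    · exact hne (by rw [← h1]; simp)
    · exact h u w hR (by rw [← h1]; simp)
    · exact h u w hR (by rw [← h1]; simp)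
    · exact hne (by rw [← h1]; exact add_self _)
  obtain ⟨hz1, hz2⟩ := hz0
  rw [mem_translate] at hz1 hz2
  obtain ⟨u1, w1, v1, l1, hR1, hl1, hb1⟩ := rep _ hz1
  obtain ⟨u2, w2, v2, l2, hR2, hl2, hb2⟩ := rep _ hz2
  have hsum0 : (z0 + x) + (z0 + y) = x + y := by
    have : (z0 + x) + (z0 + y) = (z0 + z0) + (x + y) := by ring
    rw [this, add_self, zero_add]
  -- all elements have an index among two
  let L : Finset C := {e (ga u1 w1 v1), e (al u1) + e (al w1) + e (ga u1 w1 v1),
    e (ga u2 w2 v2), e (al u2) + e (al w2) + e (ga u2 w2 v2)}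
  have hsub : translate B x ∩ translate B y ⊆ (fun z => z + x) ⁻¹' (L : Set C) := by
    rintro z ⟨hx, hy⟩
    rw [mem_translate] at hx hy
    obtain ⟨u, w, v, l, hR, hl, hb⟩ := rep _ hx
    obtain ⟨u', w', v', l', hR', hl', hb'⟩ := rep _ hy
    have hsum : (z + x) + (z + y) = x + y := by
      have : (z + x) + (z + y) = (z + z) + (x + y) := by ring
      rw [this, add_self, zero_add]
    have d := hdiff l l' u w v u' w' v' hR hl hl' (by rw [← hb, ← hb']; exact hsum)
    have htot : (((l ++ [ga u w v]) ++ (l' ++ [ga u' w' v']) ++ (l1 ++ [ga u1 w1 v1]) ++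
        (l2 ++ [ga u2 w2 v2])).map e).sum = 0 := by
      rw [List.map_append, List.map_append, List.map_append, List.sum_append, List.sum_append,
        List.sum_append, ← hb, ← hb', ← hb1, ← hb2, hsum, add_assoc, hsum0, add_self]
    have hc := even_count _ htot (ga u w v)
    have hor : ga u1 w1 v1 = ga u w v ∨ ga u2 w2 v2 = ga u w v := by
      by_contra hcon
      push Not at hcon
      simp only [List.count_append, hcount l u w u w v hl, hcount l' u' w' u w v hl',
        hcount l1 u1 w1 u w v hl1, hcount l2 u2 w2 u w v hl2, List.count_singleton] at hc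
      simp [d.symm, hcon.1, hcon.2] at hc
    show z + x ∈ (L : Set C)
    rcases hor with hg | hg <;> obtain ⟨rfl, rfl, rfl⟩ := ga_inj hg <;>
      rcases hl with rfl | rfl <;> rw [hb] <;> simp [L, add_assoc]
  refine (Set.Countable.preimage_of_injOn (L.countable_toSet) ?_).mono hsub
  intro z _ z' _ hz
  exact add_right_cancel hz

/-! ### The uncountable clique -/

lemma exists_clique : ∃ H : Set C, ¬ H.Countable ∧ H.Pairwise S := by
  obtain ⟨H, hH⟩ := zorn_subset {H : Set C | H.Pairwise S} (by
    intro c hc hchain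
    refine ⟨⋃₀ c, ?_, fun s hs => subset_sUnion_of_mem hs⟩
    exact (Set.pairwise_sUnion hchain.directedOn).2 fun a ha => hc ha)
  refine ⟨H, ?_, hH.prop⟩
  intro hc
  -- a new point all of whose columns from 1 on enumerate H
  obtain ⟨f, hf⟩ := Set.countable_iff_exists_subset_range.1 hc
  let y : C → C := fun a i => if (Nat.unpair i).1 = 0 then a (Nat.unpair i).2 else
    f ((Nat.unpair i).1 - 1) (Nat.unpair i).2
  have hycol : ∀ a n, col (y a) (n + 1) = f n := by
    intro a n; funext i
    simp [col, y]
  have hy0 : ∀ a, col (y a) 0 = a := by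
    intro a; funext i
    simp [col, y]
  have hyinj : Function.Injective y := fun a b h => by rw [← hy0 a, ← hy0 b, h]
  obtain ⟨a, ha⟩ : ∃ a, y a ∉ H := by
    by_contra hcon
    push Not at hcon
    apply uncountable_C
    exact (hc.preimage_of_injOn (f := y) hyinj.injOn).mono fun a _ => hcon a
  have hins : insert (y a) H ∈ {H : Set C | H.Pairwise S} := by
    show (insert (y a) H).Pairwise S
    refine hH.prop.insert fun b hb hne => ?_
    obtain ⟨n, hn⟩ := hf hb
    have hR : R b (y a) := ⟨hne.symm, n + 1, by rw [hycol, hn]⟩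
    exact ⟨Or.inr hR, Or.inl hR⟩
  exact ha (hH.le_of_ge hins (subset_insert _ _) (mem_insert _ _))

/-! ### No perfect clique -/

lemma no_perfect {Q : Set C} (hQ : Perfect Q) (hne : Q.Nonempty) : ¬ Q.Pairwise S := by
  intro hpw
  have hcomp : CompactSpace Q := isCompact_iff_compactSpace.1 hQ.closed.isCompact
  have hnon : Nonempty Q := hne.to_subtype
  -- two points in every nonempty open set
  have two : ∀ (U : Set Q), IsOpen U → ∀ x ∈ U, ∃ y ∈ U, y ≠ x := by
    intro U hU x hx
    obtain ⟨V, hV, rfl⟩ := isOpen_induced_iff.1 hU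
    obtain ⟨y, ⟨hyV, hyQ⟩, hyne⟩ := accPt_iff_nhds.1 (hQ.acc x.1 x.2) V (hV.mem_nhds hx)
    exact ⟨⟨y, hyQ⟩, hyV, fun h => hyne (congrArg Subtype.val h)⟩
  let F : Option (ℕ ⊕ ℕ) → Set (Q × Q) := fun o =>
    match o with
    | none => {w | w.1.1 = w.2.1}
    | some (Sum.inl n) => {w | w.1.1 = col w.2.1 n}
    | some (Sum.inr n) => {w | w.2.1 = col w.1.1 n}
  have c1 : Continuous fun w : Q × Q => w.1.1 := continuous_subtype_val.comp continuous_fst
  have c2 : Continuous fun w : Q × Q => w.2.1 := continuous_subtype_val.comp continuous_snd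
  have hF : ∀ o, IsClosed (F o) := by
    intro o
    match o with
    | none => exact isClosed_eq c1 c2
    | some (Sum.inl n) => exact isClosed_eq c1 ((col_continuous n).comp c2)
    | some (Sum.inr n) => exact isClosed_eq c2 ((col_continuous n).comp c1)
  have hcov : ⋃ o, F o = Set.univ := by
    refine eq_univ_of_forall fun w => ?_
    by_cases hw : w.1.1 = w.2.1
    · exact mem_iUnion.2 ⟨none, hw⟩
    · rcases hpw w.1.2 w.2.2 hw with ⟨-, n, hn⟩ | ⟨-, n, hn⟩
      · exact mem_iUnion.2 ⟨some (Sum.inl n), hn⟩
      · exact mem_iUnion.2 ⟨some (Sum.inr n), hn⟩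
  obtain ⟨o, ⟨u, w⟩, ho⟩ := nonempty_interior_of_iUnion_of_closed hF hcov
  obtain ⟨U, V, hU, hV, hu, hw, hUV⟩ := isOpen_prod_iff.1 isOpen_interior u w ho
  have hsub : U ×ˢ V ⊆ F o := hUV.trans interior_subset
  obtain ⟨u', hu', hune⟩ := two U hU u hu
  obtain ⟨w', hw', hwne⟩ := two V hV w hw
  have h1 : (u, w) ∈ F o := hsub ⟨hu, hw⟩
  have h2 : (u', w) ∈ F o := hsub ⟨hu', hw⟩
  have h3 : (u, w') ∈ F o := hsub ⟨hu, hw'⟩
  match o, h1, h2, h3 with
  | none, h1, h2, h3 =>
    exact hune (Subtype.ext ((show u'.1 = w.1 from h2).trans (show u.1 = w.1 from h1).symm))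
  | some (Sum.inl n), h1, h2, h3 =>
    exact hune (Subtype.ext ((show u'.1 = col w.1 n from h2).trans
      (show u.1 = col w.1 n from h1).symm))
  | some (Sum.inr n), h1, h2, h3 =>
    exact hwne (Subtype.ext ((show w'.1 = col u.1 n from h3).trans
      (show w.1 = col u.1 n from h1).symm))

/-- In ZFC there is a Borel set `B` in the Cantor group such that some uncountable set `H` has
`(B + x) ∩ (B + y)` uncountable for all `x, y` in `H`, while every perfect set contains `x, y`
with `(B + x) ∩ (B + y)` countable. -/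
theorem result : ∃ B : Set (ℕ → ZMod 2), IsBorel B ∧
    (∃ H : Set (ℕ → ZMod 2), ¬ H.Countable ∧
      ∀ x ∈ H, ∀ y ∈ H, ¬ (translate B x ∩ translate B y).Countable) ∧
    (∀ P : Set (ℕ → ZMod 2), Perfect P → P.Nonempty →
      ∃ x ∈ P, ∃ y ∈ P, (translate B x ∩ translate B y).Countable) := by
  refine ⟨B, borel_B, ?_, ?_⟩
  · obtain ⟨H, hHc, hHS⟩ := exists_clique
    have hinj : Function.Injective (fun x => e (al x)) := e_injective.comp al_injective
    -- a pair in the relation, to see that B itself is uncountable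
    obtain ⟨u0, hu0, w0, hw0, hne0⟩ : ∃ u ∈ H, ∃ w ∈ H, u ≠ w := by
      by_contra hcon
      push Not at hcon
      exact hHc (Set.Subsingleton.countable fun x hx y hy => hcon x hx y hy)
    obtain ⟨a, b, hab⟩ : ∃ a b, R a b := by
      rcases hHS hu0 hw0 hne0 with h | h
      · exact ⟨_, _, h⟩
      · exact ⟨_, _, h⟩
    refine ⟨(fun x => e (al x)) '' H, ?_, ?_⟩
    · intro hc
      exact hHc ((hc.preimage_of_injOn hinj.injOn).mono (subset_preimage_image _ _))
    · rintro - ⟨x, hx, rfl⟩ - ⟨y, hy, rfl⟩
      by_cases hxy : x = y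
      · subst hxy
        intro hc
        rw [inter_self] at hc
        refine uncountable_inter (x := e (al x)) (y := e (al x) + (e (al a) + e (al b))) hab ?_
          (hc.mono inter_subset_left)
        show e (al x) + (e (al x) + (e (al a) + e (al b))) = _
        rw [← add_assoc, add_self, zero_add]
      · rcases hHS hx hy hxy with h | h
        · exact uncountable_inter h rfl
        · exact uncountable_inter h (add_comm _ _)
  · intro P hP hne
    by_contra hcon
    push Not at hcon
    have hinf : P.Infinite := by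
      intro hfin
      obtain ⟨x, hx⟩ := hne
      have := hP.acc x hx
      rw [accPt_iff_nhds] at this
      have hopen : IsOpen ((P \ {x})ᶜ) := (hfin.subset sdiff_subset).isClosed.isOpen_compl
      obtain ⟨y, ⟨hy1, hy2⟩, hy3⟩ := this _ (hopen.mem_nhds (by simp))
      exact hy1 ⟨hy2, hy3⟩
    have key : ∀ x ∈ P, ∀ y ∈ P, x ≠ y → ∃ u w, R u w ∧ x + y = e (al u) + e (al w) := by
      intro x hx y hy hxy
      by_contra hc
      push Not at hc
      exact hcon x hx y hy (countable_inter hxy hc)
    obtain ⟨t, ht⟩ := star hinf (fun x hx y hy hxy => by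
      obtain ⟨u, w, hR, h⟩ := key x hx y hy hxy
      exact ⟨al u, al w, fun h' => hR.1 (al_injective h'), h⟩)
    obtain ⟨hQ, hQne⟩ := perfect_indices hP hne t ht
    set Q := {p | t + e p ∈ P} with hQdef
    -- all indices are of the first kind and pairwise related
    have hpair : ∀ p ∈ Q, ∀ q ∈ Q, p ≠ q → ∃ u w, p = al u ∧ q = al w ∧ S u w := by
      intro p hp q hq hpq
      obtain ⟨u, w, hR, h⟩ := key _ hp _ hq (fun h => hpq (e_injective (add_left_cancel h)))
      have hsum : t + e p + (t + e q) = e p + e q := by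
        have : t + e p + (t + e q) = (t + t) + (e p + e q) := by ring
        rw [this, add_self, zero_add]
      rw [hsum] at h
      rcases four hpq h with ⟨h1, h2⟩ | ⟨h1, h2⟩
      · exact ⟨u, w, h1, h2, Or.inl hR⟩
      · exact ⟨w, u, h1, h2, Or.inr hR⟩
    -- the perfect set of the points u
    have hal : ∀ p ∈ Q, ∃ u, p = al u := by
      intro p hp
      obtain ⟨q, ⟨-, hq⟩, hqp⟩ := accPt_iff_nhds.1 (hQ.acc p hp) _ Filter.univ_mem
      obtain ⟨u, w, h1, -, -⟩ := hpair p hp q hq hqp.symm
      exact ⟨u, h1⟩
    have hQ' : Perfect {u | al u ∈ Q} := by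
      refine ⟨hQ.closed.preimage al_continuous, ?_⟩
      intro u hu
      rw [accPt_iff_nhds]
      intro U hU
      obtain ⟨V, hVU, hV, huV⟩ := mem_nhds_iff.1 hU
      obtain ⟨k, hk⟩ := mem_nhds_agree hV huV
      obtain ⟨q, ⟨hqU, hqQ⟩, hqne⟩ := accPt_iff_nhds.1 (hQ.acc _ hu) _
        ((isOpen_agree (al u) (k + 1)).mem_nhds (fun _ _ => rfl))
      obtain ⟨w, rfl⟩ := hal q hqQ
      refine ⟨w, ⟨hVU (hk w fun i hi => ?_), hqQ⟩, ?_⟩
      · exact hqU (i + 1) (by omega)
      · rintro rfl
        exact hqne rfl
    have hQ'ne : {u | al u ∈ Q}.Nonempty := by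
      obtain ⟨p, hp⟩ := hQne
      obtain ⟨u, rfl⟩ := hal p hp
      exact ⟨u, hp⟩
    refine no_perfect hQ' hQ'ne ?_
    intro u hu w hw huw
    obtain ⟨u', w', h1, h2, h3⟩ := hpair _ hu _ hw (fun h => huw (al_injective h))
    rw [al_injective h1, al_injective h2]
    exact h3

end Pool.Agent.Results.MP_11d5c7_lc.OverlapTranslates
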